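import Pool.Agent.GJ.Bas

/-!
# GJ/G-Up: `L` of index `2` in `H`

PLAN.  For every `P`: `L.relIndex P.D = H.relIndex P.D * L.relIndex (H ⊓ P.D)` (`Subgroup.relIndex_mul_relIndex`-type), the second factor is `1` or `2`
(`L.relIndex H = 2`: `Subgroup.relIndex_dvd_of_le_left`-type, it is at most `2`; or: two elements of `H` outside `L` differ by an element of `L`), and it is `1` iff `P.D ⊓ H ≤ L`.
-/

namespace Pool.Agent.GJ

open MulAction Pool.Agent.H73.DU Pool.Agent.H73.AL Pool.Agent.LD Pool.Agent.TS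

private theorem Up_two {L H D : Subgroup GQ} (hi : L.relIndex H = 2) :
    L.relIndex (H ⊓ D) = 1 ∨ L.relIndex (H ⊓ D) = 2 := by
  have h0 : L.relIndex H ≠ 0 := by rw [hi]; decide
  have h1 : L.relIndex (H ⊓ D) ≠ 0 := fun h => h0 (Subgroup.relIndex_eq_zero_of_le_right inf_le_left h)
  have h2 : L.relIndex (H ⊓ D) ≤ 2 := by
    rw [← hi]
    exact Subgroup.relIndex_le_of_le_right inf_le_left h0
  omega

private theorem Up_mul {L H : Subgroup GQ} (D : Subgroup GQ) (hle : L ≤ H) :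
    L.relIndex (H ⊓ D) * H.relIndex D = L.relIndex D := by
  rw [Subgroup.relIndex_inf_mul_relIndex, inf_eq_left.2 hle]

theorem up_ci {V T : Finset ℕ} {i : ℕ} {L H : Subgroup GQ} (hL : Ci V T (i + 1) L)
    (hH : IsOpen (H : Set GQ)) (hle : L ≤ H) (hi : L.relIndex H = 2) : Ci V T i H := by
  refine ⟨hH, fun P hP => ?_⟩
  have h1 := hL.2 P hP
  rw [← Up_mul P.D hle] at h1
  rcases Up_two (D := P.D) hi with h2 | h2
  · rw [h2, one_mul] at h1
    exact (pow_dvd_pow 2 (Nat.le_succ i)).trans h1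
  · rw [h2, pow_succ, mul_comm] at h1
    exact Nat.dvd_of_mul_dvd_mul_left (by decide) h1

theorem up_ns {V T : Finset ℕ} {i : ℕ} {L H : Subgroup GQ} (hL : Ci V T (i + 1) L)
    (hle : L ≤ H) {P : Pl} (hP : Pin V T P) (hc : Crit i H P) : ¬ P.D ⊓ H ≤ L := by
  intro h
  apply hc
  have h1 := hL.2 P hP
  have h2 : L.relIndex (H ⊓ P.D) = 1 := by
    rw [Subgroup.relIndex_eq_one, inf_comm]
    exact h
  rw [← Up_mul P.D hle, h2, one_mul] at h1
  exact h1

/-- a character nontrivial at a place is not trivial -/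
theorem not_tr {H : Subgroup GQ} {P : Pl} {χ : GQ → ℤˣ} (h : NtAt H P χ) : ¬ Tr H χ := by
  obtain ⟨y, _, hy, h1⟩ := h
  exact fun h2 => h1 (h2 y hy)

end Pool.Agent.GJ
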