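import Pool.Agent.GJ.D.Mem
import Pool.Agent.GJ.R.D4
import Pool.Agent.GJ.R.Nm
import Pool.Agent.GJ.N.Norm
import Pool.Agent.GJ.G.Up

/-!
# GJ/G-G5: a bad quadratic extension is a sum of `[H, good T-trivial]` and elements of `ES` (paper G5)

PLAN.  `H` has level `i` (`up_ci`).  Fix `τ ∈ H`, `τ ∉ L`.  Representatives `P k` of the critical places of `H` (`exists_reps` with `F := Crit i H`); they are inequivalent for `L` too (`peq_mono`), and
nonsplit (`up_ns`).  `norm_nt`: characters `ζ k` of `L` with `NtAt H (P k) (nm L τ (ζ k))`.  `glue` for `L`: `ζ` with `EqAt L (P k) ζ (ζ k)`, `T`-trivial.  `ν := nm L τ ζ`: `nm_chr`, `nm_ttr`; it is good: at `P k` by `nm_nonsplit`, at the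
other critical places by `ntAt_congr`.  `ν` is not trivial, since there is a critical place (`H` has not level `i + 1`: otherwise the first alternative).  `d4` for `L < H`: `f + pc L = pq L ζ + pc (kr H ν)` on `famT T`; `kr H ν` has level `i + 1` (`good_iff`):
`f ∈ ES` (`mem_two` or `quad_mem`; index `2 * H.index = L.index`, or twice that), `pq L ζ ∈ ES` (`pq_mem`), `pc (kr H ν) = pq H ν`.
-/

namespace Pool.Agent.GJ

open MulAction Pool.Agent.H73.DU Pool.Agent.H73.AL Pool.Agent.LD Pool.Agent.TS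

/-- a `T`-trivial character of `L` with a good norm -/
theorem g5_chr {V T : Finset ℕ} (hTp : ∀ p ∈ T, p.Prime) (h2 : 2 ∈ T) {i : ℕ}
    {L H : Subgroup GQ} (hL : Ci V T (i + 1) L) (hH : IsOpen (H : Set GQ)) (hle : L ≤ H)
    (hi : L.relIndex H = 2) {τ : GQ} (hτ : τ ∈ H) (hτ' : τ ∉ L) :
    ∃ ζ : GQ → ℤˣ, IsChr L ζ ∧ TTr T L ζ ∧ GT V T i H (nm L τ ζ) := by
  obtain ⟨ι, hfi, P, hP, hne, hall⟩ := exists_reps V T hH (Crit i H)
  have h1 : ∀ k, ∃ ζ : GQ → ℤˣ, IsChr L ζ ∧ NtAt H (P k) (nm L τ ζ) := fun k =>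
    norm_nt h2 hH hL.1 hle hi hτ hτ' (hP k).1 (up_ns hL hle (hP k).1 (hP k).2)
  choose z hz hz' using h1
  obtain ⟨ζ, hζ, hζT, -, hζe⟩ := glue hTp h2 hL.1 P (fun k => (hP k).1)
    (fun k l hkl h => hne k l hkl (peq_mono hle h)) z hz
  refine ⟨ζ, hζ, hζT, nm_chr hL.1 hle hi hτ hτ' hζ, nm_ttr hle hi hτ hτ' hζ.1 hζT, ?_⟩
  intro Q hQ hc
  obtain ⟨k, hk⟩ := hall Q hQ hc
  refine (ntAt_congr hk (nm_mulp hle hi hτ hτ' hζ.1)).1 ?_
  have h3 := nm_nonsplit hle hi hτ hτ' hζ.1 (hz k).1 (up_ns hL hle (hP k).1 (hP k).2) (hζe k)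
  obtain ⟨g, hg, hgH, hgn⟩ := hz' k
  refine ⟨g, hg, hgH, ?_⟩
  rw [h3 g hg hgH]
  exact hgn

theorem g5 {V T : Finset ℕ} (hTp : ∀ p ∈ T, p.Prime) (h2 : 2 ∈ T) {i n B : ℕ}
    (hV : ∃ P : Pl, Pin V T P) {L H : Subgroup GQ} (hL : Ci V T (i + 1) L)
    (hH : IsOpen (H : Set GQ)) (hle : L ≤ H) (hi : L.relIndex H = 2) (hn : n ∣ L.index)
    (hB : 4 * L.index ≤ B) : Ci V T (i + 1) H ∨ ∃ ν : GQ → ℤˣ, GT V T i H ν ∧
      (pq H ν ∈ ES V T (i + 1) n B → pc L ∈ ES V T (i + 1) n B) := by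
  have hHi := up_ci hL hH hle hi
  by_cases hcr : ∀ P : Pl, Pin V T P → ¬ Crit i H P
  · exact Or.inl (hHi.succ_of hcr)
  · right
    push Not at hcr
    obtain ⟨P, hP, hc⟩ := hcr
    have hτe : ∃ τ ∈ H, τ ∉ L := by
      by_contra hcon
      push Not at hcon
      have h3 : L.relIndex H = 1 := Subgroup.relIndex_eq_one.2 hcon
      omega
    obtain ⟨τ, hτ, hτ'⟩ := hτe
    obtain ⟨ζ, hζ, hζT, hg⟩ := g5_chr hTp h2 hL hH hle hi hτ hτ'
    refine ⟨nm L τ ζ, hg, fun hmem => ?_⟩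
    have hnt : ¬ Tr H (nm L τ ζ) := not_tr (hg.good P hP hc)
    obtain ⟨f, hf, hfe⟩ := d4 hH hL.1 hle hi hτ hτ' hζ hζT hnt
    have hK : Ci V T (i + 1) (kr H (nm L τ ζ)) := (good_iff hHi hg.chr).1 hg.good
    have hidx : (kr H (nm L τ ζ)).index = 2 * H.index := kr_index' hg.chr.1 hnt
    have hLidx : L.index = 2 * H.index := by
      have h3 := Subgroup.relIndex_mul_index hle
      rw [hi] at h3
      exact h3.symm
    have hfm : f ∈ ES V T (i + 1) n B := by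
      rcases hf with rfl | ⟨M, hMo, hMK, hMi, rfl⟩
      · refine mem_two hK ?_ ?_
        · rw [hidx, ← hLidx]
          exact hn
        · rw [hidx, ← hLidx]
          omega
      · have h3 := Subgroup.relIndex_mul_index hMK
        rw [hMi, hidx, ← hLidx] at h3
        refine quad_mem hK hMo hMK hMi ?_ ?_
        · rw [← h3]
          exact Dvd.dvd.mul_left hn 2
        · rw [← h3]
          omega
    have hpL : pq L ζ ∈ ES V T (i + 1) n B :=
      pq_mem hTp h2 hV hL hζ (Dvd.dvd.mul_left hn 2) hB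
    have hpq : pq H (nm L τ ζ) = pc (kr H (nm L τ ζ)) := by
      unfold pq
      rw [if_neg hnt]
    rw [hpq] at hmem
    refine mem_congr (g := pq L ζ + pc (kr H (nm L τ ζ)) - f) ?_ (sub_mem (add_mem hpL hmem) hfm)
    intro U hU
    have h3 := hfe U hU
    rw [Pi.sub_apply, Pi.add_apply]
    linarith

end Pool.Agent.GJ
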