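import Pool.Agent.GJ.G.Up

/-!
# GJ/G-UpR: totally real subgroups

Complex conjugations are closed under conjugation; the kernel of a good character, trivial on the complex conjugations, of a totally
real field is exact of the next level.
-/

namespace Pool.Agent.GJ

open MulAction Pool.Agent.H73.DU Pool.Agent.H73.AL Pool.Agent.LD Pool.Agent.TS

/-- the conjugates of a subgroup that contains all complex conjugations -/
theorem tr_cj {H : Subgroup GQ} (h : TR H) (b : GQ) : TR (cj b H) := by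
  intro ι c hc
  rw [mem_cj_conj]
  refine h (ι.comp ((b⁻¹ : GQ) : AlgebraicClosure ℚ →+* AlgebraicClosure ℚ)) _ fun x => ?_
  have h1 : (b⁻¹ : GQ) ((b * c * b⁻¹ : GQ) x) = c ((b⁻¹ : GQ) x) := by
    rw [← AlgEquiv.mul_apply, ← AlgEquiv.mul_apply]
    congr 1
    group
  change ι ((b⁻¹ : GQ) ((b * c * b⁻¹ : GQ) x)) = starRingEnd ℂ (ι ((b⁻¹ : GQ) x))
  rw [h1, hc]

/-- the kernel of a `c`-trivial good character of a totally real field -/
theorem pq_tr {V T : Finset ℕ} {i n B : ℕ} {H : Subgroup GQ} (hH : Ci V T i H) (hR : TR H)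
    {χ : GQ → ℤˣ} (h : GT V T i H χ) (hnt : ¬ Tr H χ)
    (hc : ∀ c : GQ, IsCc c → c ∈ H → χ c = 1) (hn : n ∣ 2 * H.index)
    (hB : 2 * H.index ≤ B) : pq H χ ∈ ES V T (i + 1) n B := by
  have h1 := (good_iff hH h.chr).1 h.good
  have h2 := kr_index' h.chr.1 hnt
  unfold pq
  rw [if_neg hnt]
  refine mem_Ex ⟨h1, Or.inr (Or.inl (hR.mono h.chr.1 hc rfl))⟩ ?_ ?_
  · rw [h2]
    exact hn
  · rw [h2]
    exact hB

end Pool.Agent.GJ
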