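import Pool.Agent.GJ.N.Four
import Pool.Agent.GJ.Bas

/-!
# GJ/G-Mat: characters of two fields with the same completion

`M := H ⊓ K` is open and `P.D ⊓ M = P.D ⊓ H = P.D ⊓ K`. By `four` for `K` and `class_eq` for `M`, `χ` agrees at `P`
with one of three characters of `K`.
-/

namespace Pool.Agent.GJ

open MulAction Pool.Agent.H73.DU Pool.Agent.H73.AL Pool.Agent.LD Pool.Agent.TS

theorem match_chr {V T : Finset ℕ} (h2 : 2 ∈ T) {H K : Subgroup GQ} (hH : IsOpen (H : Set GQ))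
    (hK : IsOpen (K : Set GQ)) {P : Pl} (hP : Pin V T P) (hHK : P.D ⊓ H = P.D ⊓ K) {χ : GQ → ℤˣ}
    (hχ : IsChr H χ) (hn : NtAt H P χ) :
    ∃ ω : GQ → ℤˣ, IsChr K ω ∧ NtAt K P ω ∧ ∀ h ∈ P.D, h ∈ H → χ h = ω h := by
  have hHK' : ∀ h ∈ P.D, h ∈ H → h ∈ K := fun h hd hh =>
    (hHK.le (Subgroup.mem_inf.2 ⟨hd, hh⟩)).2
  have hKH' : ∀ h ∈ P.D, h ∈ K → h ∈ H := fun h hd hh =>
    (hHK.ge (Subgroup.mem_inf.2 ⟨hd, hh⟩)).2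
  have hM : IsOpen ((H ⊓ K : Subgroup GQ) : Set GQ) := by
    rw [Subgroup.coe_inf]
    exact hH.inter hK
  have hMH : H ⊓ K ≤ H := inf_le_left
  have hMK : H ⊓ K ≤ K := inf_le_right
  obtain ⟨u, π, hu, hπ, nu, nπ, nuπ, -⟩ := four h2 hK hP
  have hnt : ∀ {ω : GQ → ℤˣ}, NtAt K P ω → NtAt (H ⊓ K) P ω := by
    rintro ω ⟨h, hd, hh, h1⟩
    exact ⟨h, hd, Subgroup.mem_inf.2 ⟨hKH' h hd hh, hh⟩, h1⟩
  have hnχ : NtAt (H ⊓ K) P χ := by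
    obtain ⟨h, hd, hh, h1⟩ := hn
    exact ⟨h, hd, Subgroup.mem_inf.2 ⟨hh, hHK' h hd hh⟩, h1⟩
  have key : ∀ {ω : GQ → ℤˣ}, EqAt (H ⊓ K) P χ ω → ∀ h ∈ P.D, h ∈ H → χ h = ω h :=
    fun h1 h hd hh => h1 h hd (Subgroup.mem_inf.2 ⟨hh, hHK' h hd hh⟩)
  rcases class_eq h2 hM hP (hu.mono hMK hM) (hπ.mono hMK hM) (hχ.mono hMH hM) (hnt nu) (hnt nπ)
    (hnt nuπ) hnχ with h1 | h1 | h1
  · exact ⟨u, hu, nu, key h1⟩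
  · exact ⟨π, hπ, nπ, key h1⟩
  · exact ⟨u * π, hu.mul hπ, nuπ, key h1⟩

end Pool.Agent.GJ
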